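import Mathlib

/-!
Geometric sums and a Doob type inequality for finite laminar families of sets.
-/

open MeasureTheory Set
open scoped ENNReal NNReal

namespace Pool.Agent.MP_6bb8b9_an.H51

/-- Powers of two. -/
noncomputable def tw (s : ℝ) : ℝ≥0∞ := (2 : ℝ≥0∞) ^ s

lemma tw_ne_zero (s : ℝ) : tw s ≠ 0 := by
  simp [tw, ENNReal.rpow_eq_zero_iff]

lemma tw_ne_top (s : ℝ) : tw s ≠ ∞ := by
  simp [tw, ENNReal.rpow_eq_top_iff]

lemma tw_add (s t : ℝ) : tw (s + t) = tw s * tw t :=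
  ENNReal.rpow_add _ _ (by norm_num) (by norm_num)

lemma tw_rpow (s t : ℝ) : tw s ^ t = tw (s * t) := (ENNReal.rpow_mul _ _ _).symm

lemma tw_one : tw 1 = 2 := by simp [tw]

lemma tw_mono {s t : ℝ} (h : s ≤ t) : tw s ≤ tw t :=
  ENNReal.rpow_le_rpow_of_exponent_le (by norm_num) h

lemma tw_lt_iff {s t : ℝ} (h : tw s < tw t) : s < t := by
  by_contra hc
  exact absurd (tw_mono (not_lt.1 hc)) (not_le.2 h)

lemma exists_lg (x : ℝ≥0∞) : ∃ k : ℤ, x ≠ 0 → x ≠ ∞ → tw k ≤ x ∧ x < tw (k + 1) := by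
  by_cases h0 : x = 0
  · exact ⟨0, fun h => absurd h0 h⟩
  by_cases h1 : x = ∞
  · exact ⟨0, fun _ h => absurd h1 h⟩
  obtain ⟨k, hk1, hk2⟩ := ENNReal.exists_mem_Ico_zpow (y := 2) h0 h1 (by norm_num) (by norm_num)
  refine ⟨k, fun _ _ => ⟨?_, ?_⟩⟩
  · rw [tw, ENNReal.rpow_intCast]; exact hk1
  · have : ((k : ℝ) + 1) = ((k + 1 : ℤ) : ℝ) := by push_cast; ring
    rw [tw, this, ENNReal.rpow_intCast]; exact hk2

/-- The integer part of the binary logarithm. -/
noncomputable def lg (x : ℝ≥0∞) : ℤ := (exists_lg x).choose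

lemma tw_lg_le {x : ℝ≥0∞} (h0 : x ≠ 0) (h1 : x ≠ ∞) : tw (lg x) ≤ x :=
  ((exists_lg x).choose_spec h0 h1).1

lemma lt_tw_lg {x : ℝ≥0∞} (h0 : x ≠ 0) (h1 : x ≠ ∞) : x < tw (lg x + 1) :=
  ((exists_lg x).choose_spec h0 h1).2

lemma lg_mono {x y : ℝ≥0∞} (h0 : x ≠ 0) (h1 : y ≠ ∞) (h : x ≤ y) : lg x ≤ lg y := by
  have hx1 : x ≠ ∞ := ne_top_of_le_ne_top h1 h
  have hy0 : y ≠ 0 := fun hy => h0 (le_antisymm (hy ▸ h) bot_le)
  have := tw_lt_iff ((tw_lg_le h0 hx1).trans_lt (h.trans_lt (lt_tw_lg hy0 h1)))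
  have h2 : (lg x : ℝ) < ((lg y + 1 : ℤ) : ℝ) := by push_cast; exact this
  have h3 : lg x < lg y + 1 := by exact_mod_cast h2
  omega

/-- The constant of the geometric sum. -/
noncomputable def Cg (a : ℝ) : ℝ≥0∞ := (1 - tw (-a))⁻¹

lemma Cg_ne_top {a : ℝ} (ha : 0 < a) : Cg a ≠ ∞ := by
  have : tw (-a) < 1 := ENNReal.rpow_lt_one_of_one_lt_of_neg (by norm_num) (by linarith)
  rw [Cg, ENNReal.inv_ne_top]
  exact (tsub_pos_of_lt this).ne'

lemma geom_sum_le (a : ℝ) (I : Finset ℤ) (m : ℤ) (hm : ∀ i ∈ I, i ≤ m) :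
    ∑ i ∈ I, tw (i * a) ≤ Cg a * tw (m * a) := by
  classical
  have h1 : ∀ i ∈ I, tw (i * a) = tw (-a) ^ ((m - i).toNat) * tw (m * a) := by
    intro i hi
    rw [← ENNReal.rpow_natCast, tw_rpow, ← tw_add]
    congr 1
    have : (((m - i).toNat : ℤ) : ℝ) = ((m - i : ℤ) : ℝ) := by
      rw [Int.toNat_of_nonneg (by linarith [hm i hi])]
    have h2 : (((m - i).toNat : ℕ) : ℝ) = (m : ℝ) - i := by
      rw [← Int.cast_natCast, this]; push_cast; ring
    rw [h2]; ring
  rw [Finset.sum_congr rfl h1, ← Finset.sum_mul]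
  gcongr
  rw [Cg, ← ENNReal.tsum_geometric]
  have hinj : Set.InjOn (fun i => (m - i).toNat) (I : Set ℤ) := by
    intro i hi i' hi' h
    have h1 := hm i hi
    have h2 := hm i' hi'
    simp only at h
    omega
  rw [← Finset.sum_image (f := fun k : ℕ => tw (-a) ^ k) hinj]
  exact ENNReal.sum_le_tsum _

lemma geom_sum_le' (a : ℝ) (I : Finset ℤ) (M : ℝ≥0∞)
    (hM : ∀ i ∈ I, tw (i * a) ≤ M) : ∑ i ∈ I, tw (i * a) ≤ Cg a * M := by
  rcases I.eq_empty_or_nonempty with rfl | hI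
  · simp
  · exact (geom_sum_le a I (I.max' hI) fun i hi => I.le_max' i hi).trans
      (mul_le_mul_right (hM _ (I.max'_mem hI)) _)

lemma geom_sum_rpow_le {q : ℝ} (hq : 0 < q) (I : Finset ℤ) :
    (∑ i ∈ I, tw i) ^ q ≤ Cg 1 ^ q * ∑ i ∈ I, tw (i * q) := by
  rcases I.eq_empty_or_nonempty with rfl | hI
  · simp [hq]
  · have h := geom_sum_le 1 I (I.max' hI) fun i hi => I.le_max' i hi
    simp only [mul_one] at h
    calc (∑ i ∈ I, tw i) ^ q ≤ (Cg 1 * tw (I.max' hI)) ^ q := by gcongr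
      _ = Cg 1 ^ q * tw (I.max' hI * q) := by
          rw [ENNReal.mul_rpow_of_nonneg _ _ hq.le, tw_rpow]
      _ ≤ _ := by
          gcongr
          exact Finset.single_le_sum (f := fun i : ℤ => tw (i * q)) (fun _ _ => bot_le)
            (I.max'_mem hI)

lemma sum_rpow_le_rpow_sum {ι : Type*} {q : ℝ} (hq : 1 ≤ q) (I : Finset ι) (a : ι → ℝ≥0∞) :
    ∑ i ∈ I, a i ^ q ≤ (∑ i ∈ I, a i) ^ q := by
  classical
  induction I using Finset.induction_on with
  | empty => simp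
  | insert i I hi ih =>
    rw [Finset.sum_insert hi, Finset.sum_insert hi]
    exact (add_le_add le_rfl ih).trans (ENNReal.add_rpow_le_rpow_add _ _ hq)

variable {X : Type*} [MeasurableSpace X] {ι : Type*}

/-- Weak type inequality for a finite laminar family. -/
lemma weak_laminar (Q : ι → Set X) (hQ : ∀ k, MeasurableSet (Q k)) (μ : Measure X)
    (f : X → ℝ≥0∞) (t : ℝ≥0∞) (F : Finset ι)
    (lam : ∀ k ∈ F, ∀ l ∈ F, Disjoint (Q k) (Q l) ∨ Q k ⊆ Q l ∨ Q l ⊆ Q k)
    (hF : ∀ k ∈ F, t * μ (Q k) ≤ ∫⁻ x in Q k, f x ∂μ) :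
    t * μ (⋃ k ∈ F, Q k) ≤ ∫⁻ x in ⋃ k ∈ F, Q k, f x ∂μ := by
  classical
  induction F using Finset.strongInduction with
  | H F ih =>
    rcases F.eq_empty_or_nonempty with rfl | hne
    · simp
    obtain ⟨R, hR⟩ := Set.Finite.exists_maximalFor Q (F : Set ι) F.finite_toSet hne
    have hRF : R ∈ F := hR.1
    set F' := (F.erase R).filter fun k => Disjoint (Q k) (Q R) with hF'
    have hsub : F' ⊆ F := (Finset.filter_subset _ _).trans (Finset.erase_subset _ _)
    have hss : F' ⊂ F := Finset.ssubset_of_subset_of_ssubset (Finset.filter_subset _ _)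
      (Finset.erase_ssubset hRF)
    have hU : (⋃ k ∈ F, Q k) = Q R ∪ ⋃ k ∈ F', Q k := by
      apply Subset.antisymm
      · intro x hx
        obtain ⟨k, hk, hxk⟩ := mem_iUnion₂.1 hx
        by_cases hkR : k = R
        · exact Or.inl (hkR ▸ hxk)
        rcases lam k hk R hRF with h | h | h
        · exact Or.inr (mem_iUnion₂.2 ⟨k, Finset.mem_filter.2
            ⟨Finset.mem_erase.2 ⟨hkR, hk⟩, h⟩, hxk⟩)
        · exact Or.inl (h hxk)
        · exact Or.inl (hR.2 hk h hxk)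
      · rintro x (hx | hx)
        · exact mem_iUnion₂.2 ⟨R, hRF, hx⟩
        · obtain ⟨k, hk, hxk⟩ := mem_iUnion₂.1 hx
          exact mem_iUnion₂.2 ⟨k, hsub hk, hxk⟩
    have hdis : Disjoint (Q R) (⋃ k ∈ F', Q k) := by
      rw [Set.disjoint_iUnion₂_right]
      intro k hk
      exact (Finset.mem_filter.1 hk).2.symm
    have hm : MeasurableSet (⋃ k ∈ F', Q k) := Finset.measurableSet_biUnion _ fun k _ => hQ k
    rw [hU, measure_union hdis hm, lintegral_union hm hdis, mul_add]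
    exact add_le_add (hF R hRF) (ih F' hss (fun k hk l hl => lam k (hsub hk) l (hsub hl))
      fun k hk => hF k (hsub hk))

open Classical in
/-- The union of the sets of the family on which the average of `f` is at least `2 ^ s`. -/
def lev (S : Finset ι) (Q : ι → Set X) (μ : Measure X) (f : X → ℝ≥0∞) (s : ℤ) : Set X :=
  ⋃ k ∈ S.filter fun k => tw s * μ (Q k) ≤ ∫⁻ x in Q k, f x ∂μ, Q k

lemma measurableSet_lev (S : Finset ι) {Q : ι → Set X} (hQ : ∀ k, MeasurableSet (Q k))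
    (μ : Measure X) (f : X → ℝ≥0∞) (s : ℤ) : MeasurableSet (lev S Q μ f s) :=
  Finset.measurableSet_biUnion _ fun k _ => hQ k

lemma subset_lev {S : Finset ι} {Q : ι → Set X} {μ : Measure X} {f : X → ℝ≥0∞} {s : ℤ} {k : ι}
    (hk : k ∈ S) (h : tw s * μ (Q k) ≤ ∫⁻ x in Q k, f x ∂μ) : Q k ⊆ lev S Q μ f s := by
  classical
  intro x hx
  exact mem_iUnion₂.2 ⟨k, Finset.mem_filter.2 ⟨hk, h⟩, hx⟩

lemma lev_le (S : Finset ι) {Q : ι → Set X} (hQ : ∀ k, MeasurableSet (Q k)) (μ : Measure X)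
    (hμ : ∀ k ∈ S, μ (Q k) ≠ ∞)
    (lam : ∀ k ∈ S, ∀ l ∈ S, Disjoint (Q k) (Q l) ∨ Q k ⊆ Q l ∨ Q l ⊆ Q k)
    {f : X → ℝ≥0∞} (hf : Measurable f) (s : ℤ) :
    tw (s - 1) * μ (lev S Q μ f s) ≤ ∫⁻ x, {x | tw (s - 1) < f x}.indicator f x ∂μ := by
  classical
  set U := lev S Q μ f s with hU
  have hUm : MeasurableSet U := measurableSet_lev S hQ μ f s
  have hfin : μ U ≠ ∞ := by
    refine ne_top_of_le_ne_top ?_ (measure_biUnion_finset_le _ _)
    exact ENNReal.sum_ne_top.2 fun k hk => hμ k (Finset.mem_filter.1 hk).1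
  have h1 : tw s * μ U ≤ ∫⁻ x in U, f x ∂μ :=
    weak_laminar Q hQ μ f (tw s) _
      (fun k hk l hl => lam k (Finset.mem_filter.1 hk).1 l (Finset.mem_filter.1 hl).1)
      fun k hk => (Finset.mem_filter.1 hk).2
  have hA : MeasurableSet {x | tw (s - 1) < f x} := measurableSet_lt measurable_const hf
  have h2 : ∫⁻ x in U, f x ∂μ ≤
      (∫⁻ x, {x | tw (s - 1) < f x}.indicator f x ∂μ) + tw (s - 1) * μ U := by
    calc ∫⁻ x in U, f x ∂μ
        ≤ ∫⁻ x in U, ({x | tw (s - 1) < f x}.indicator f x + tw (s - 1)) ∂μ := by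
          refine lintegral_mono fun x => ?_
          by_cases hx : tw (s - 1) < f x
          · rw [indicator_of_mem (show x ∈ {x | tw (s - 1) < f x} from hx)]
            exact le_self_add
          · exact (not_lt.1 hx).trans le_add_self
      _ = (∫⁻ x in U, {x | tw (s - 1) < f x}.indicator f x ∂μ) + tw (s - 1) * μ U := by
          rw [lintegral_add_right _ measurable_const, setLIntegral_const]
      _ ≤ _ := by
          gcongr
          exact Measure.restrict_le_self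
  have h3 : tw s = tw (s - 1) + tw (s - 1) := by
    rw [← two_mul, ← tw_one, ← tw_add]; congr 1; ring
  rw [h3, add_mul] at h1
  exact ENNReal.le_of_add_le_add_right (ENNReal.mul_ne_top (tw_ne_top _) hfin) (h1.trans h2)

/-- The constant of the Doob type inequality. -/
noncomputable def Cd (p : ℝ) : ℝ≥0∞ := tw p * Cg (p - 1)

lemma Cd_ne_top {p : ℝ} (hp : 1 < p) : Cd p ≠ ∞ :=
  ENNReal.mul_ne_top (tw_ne_top _) (Cg_ne_top (by linarith))

/-- Doob type inequality. -/
lemma doob (S : Finset ι) {Q : ι → Set X} (hQ : ∀ k, MeasurableSet (Q k)) (μ : Measure X)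
    (hμ : ∀ k ∈ S, μ (Q k) ≠ ∞)
    (lam : ∀ k ∈ S, ∀ l ∈ S, Disjoint (Q k) (Q l) ∨ Q k ⊆ Q l ∨ Q l ⊆ Q k)
    {f : X → ℝ≥0∞} (hf : Measurable f) {p : ℝ} (hp : 1 < p) (J : Finset ℤ) :
    ∑ s ∈ J, tw (s * p) * μ (lev S Q μ f s) ≤ Cd p * ∫⁻ x, f x ^ p ∂μ := by
  classical
  have hA : ∀ s : ℤ, MeasurableSet {x | tw (s - 1) < f x} :=
    fun s => measurableSet_lt measurable_const hf
  calc ∑ s ∈ J, tw (s * p) * μ (lev S Q μ f s)
      ≤ ∑ s ∈ J, tw p * (tw ((s - 1) * (p - 1)) *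
          ∫⁻ x, {x | tw (s - 1) < f x}.indicator f x ∂μ) := by
        refine Finset.sum_le_sum fun s _ => ?_
        have : tw (s * p) = tw p * (tw ((s - 1) * (p - 1)) * tw (s - 1)) := by
          rw [← tw_add, ← tw_add]; congr 1; ring
        rw [this, mul_assoc, mul_assoc]
        gcongr
        exact lev_le S hQ μ hμ lam hf s
    _ = tw p * ∫⁻ x, ∑ s ∈ J, tw ((s - 1) * (p - 1)) *
          {x | tw (s - 1) < f x}.indicator f x ∂μ := by
        rw [← Finset.mul_sum, lintegral_finsetSum]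
        · congr 1
          refine Finset.sum_congr rfl fun s _ => ?_
          rw [lintegral_const_mul _ (hf.indicator (hA s))]
        · intro s _
          exact (hf.indicator (hA s)).const_mul _
    _ ≤ tw p * ∫⁻ x, Cg (p - 1) * f x ^ p ∂μ := by
        gcongr with x
        have hp1 : 0 < p - 1 := by linarith
        set I : Finset ℤ := (J.filter fun s : ℤ => tw (s - 1) < f x).image fun s => s - 1 with hI
        have h1 : ∑ s ∈ J, tw ((s - 1) * (p - 1)) * {x | tw (s - 1) < f x}.indicator f x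
            = (∑ i ∈ I, tw (i * (p - 1))) * f x := by
          rw [hI, Finset.sum_image (fun a _ b _ h => by simpa using h), Finset.sum_filter,
            Finset.sum_mul]
          refine Finset.sum_congr rfl fun s _ => ?_
          by_cases hx : tw (s - 1) < f x
          · rw [indicator_of_mem (show x ∈ {x | tw (s - 1) < f x} from hx), if_pos hx]
            push_cast; rfl
          · rw [indicator_of_notMem (show x ∉ {x | tw (s - 1) < f x} from hx), if_neg hx]
            simp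
        have h2 : ∑ i ∈ I, tw (i * (p - 1)) ≤ Cg (p - 1) * f x ^ (p - 1) := by
          refine geom_sum_le' (p - 1) I _ fun i hi => ?_
          obtain ⟨s, hs, rfl⟩ := Finset.mem_image.1 hi
          rw [← tw_rpow]
          have := (Finset.mem_filter.1 hs).2
          push_cast
          gcongr
        rw [h1]
        calc (∑ i ∈ I, tw (i * (p - 1))) * f x ≤ Cg (p - 1) * f x ^ (p - 1) * f x := by gcongr
          _ = Cg (p - 1) * f x ^ p := by
            rw [mul_assoc]; congr 1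
            conv_rhs => rw [show p = (p - 1) + 1 by ring]
            rw [ENNReal.rpow_add_of_nonneg _ _ hp1.le zero_le_one, ENNReal.rpow_one]
    _ = Cd p * ∫⁻ x, f x ^ p ∂μ := by
        rw [lintegral_const_mul _ (hf.pow_const p), Cd, mul_assoc]

end Pool.Agent.MP_6bb8b9_an.H51
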