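import Pool.Agent.MP_6bb8b9_an.H2.Spec
import Pool.Agent.MP_6bb8b9_an.H51.Doob

/-!
Two restricted bounds give the strong two-weight bound for a positive operator of a finite
laminar family.
-/

open MeasureTheory Set
open scoped ENNReal NNReal

namespace Pool.Agent.MP_6bb8b9_an.H51

section Abstract

variable {X : Type*} [MeasurableSpace X] {ι : Type*}

/-- The positive operator of a finite family of sets with coefficients. -/
noncomputable def Op (S : Finset ι) (Q : ι → Set X) (c : ι → ℝ≥0∞) (μ : Measure X)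
    (f : X → ℝ≥0∞) (x : X) : ℝ≥0∞ :=
  ∑ k ∈ S, (Q k).indicator (fun _ => c k * ∫⁻ y in Q k, f y ∂μ) x

lemma measurable_Op (S : Finset ι) {Q : ι → Set X} (hQ : ∀ k, MeasurableSet (Q k))
    (c : ι → ℝ≥0∞) (μ : Measure X) (f : X → ℝ≥0∞) : Measurable (Op S Q c μ f) :=
  Finset.measurable_sum _ fun k _ => measurable_const.indicator (hQ k)

lemma lintegral_Op_mul (S : Finset ι) {Q : ι → Set X} (hQ : ∀ k, MeasurableSet (Q k))
    (c : ι → ℝ≥0∞) (μ ν : Measure X) (f : X → ℝ≥0∞) {g : X → ℝ≥0∞} (hg : Measurable g) :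
    ∫⁻ x, Op S Q c μ f x * g x ∂ν
      = ∑ k ∈ S, c k * (∫⁻ y in Q k, f y ∂μ) * ∫⁻ y in Q k, g y ∂ν := by
  simp only [Op, Finset.sum_mul]
  rw [lintegral_finsetSum _ fun k _ => (measurable_const.indicator (hQ k)).fun_mul hg]
  refine Finset.sum_congr rfl fun k _ => ?_
  generalize c k * (∫⁻ y in Q k, f y ∂μ) = a
  rw [← lintegral_const_mul _ hg, ← lintegral_indicator (hQ k)]
  refine lintegral_congr fun x => ?_
  by_cases hx : x ∈ Q k <;> simp [hx]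

/-- One half of the parallel stopping argument. -/
lemma one_sided (S : Finset ι) {Q : ι → Set X} (hQ : ∀ k, MeasurableSet (Q k))
    (c : ι → ℝ≥0∞) (μ ν : Measure X) {p q : ℝ} (hpq : p.HolderConjugate q) (T : ℝ≥0∞)
    (hT : ∀ A, MeasurableSet A →
      (∫⁻ x, Op S Q c μ (A.indicator 1) x ^ p ∂ν) ^ (1 / p) ≤ T * μ A ^ (1 / p))
    (S1 : Finset ι) (hS1 : S1 ⊆ S) (j i : ι → ℤ) (U V : ℤ → Set X)
    (hU : ∀ s, MeasurableSet (U s)) (hV : ∀ s, MeasurableSet (V s))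
    (hQU : ∀ k ∈ S1, Q k ⊆ U (j k)) (hQV : ∀ k ∈ S1, Q k ⊆ V (i k))
    (hji : ∀ k ∈ S1, ∀ l ∈ S1, ∀ x, x ∈ Q k → x ∈ Q l → i k = i l → j k = j l) :
    ∑ k ∈ S1, c k * (tw (j k) * μ (Q k)) * (tw (i k) * ν (Q k))
      ≤ T * (∑ s ∈ S1.image j, tw (s * p) * μ (U s)) ^ (1 / p) *
        (Cg 1 * (∑ t ∈ S1.image i, tw (t * q) * ν (V t)) ^ (1 / q)) := by
  classical
  have hp := hpq.pos
  have hq := hpq.symm.pos
  set J := S1.image j with hJ
  set I := S1.image i with hI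
  set E : ℤ → ℤ → Set X := fun s t => ⋃ k ∈ S1.filter fun k => j k = s ∧ i k = t, Q k with hE
  have hEm : ∀ s t, MeasurableSet (E s t) := fun s t =>
    Finset.measurableSet_biUnion _ fun k _ => hQ k
  set g : ℤ → X → ℝ≥0∞ := fun s y => ∑ t ∈ I, (E s t).indicator (fun _ => tw t) y with hg
  have hgm : ∀ s, Measurable (g s) := fun s =>
    Finset.measurable_sum _ fun t _ => measurable_const.indicator (hEm s t)
  have hglow : ∀ k ∈ S1, ∀ y ∈ Q k, tw (i k) ≤ g (j k) y := by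
    intro k hk y hy
    have hyE : y ∈ E (j k) (i k) := mem_iUnion₂.2 ⟨k, Finset.mem_filter.2 ⟨hk, rfl, rfl⟩, hy⟩
    calc tw (i k) = (E (j k) (i k)).indicator (fun _ => tw (i k)) y := by
          rw [indicator_of_mem hyE]
      _ ≤ g (j k) y := Finset.single_le_sum
          (f := fun t : ℤ => (E (j k) t).indicator (fun _ => tw t) y) (fun _ _ => bot_le)
          (Finset.mem_image_of_mem i hk)
  -- step 1: group by the value of `j`
  have step1 : ∑ k ∈ S1, c k * (tw (j k) * μ (Q k)) * (tw (i k) * ν (Q k))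
      ≤ ∑ s ∈ J, tw s * ∫⁻ x, Op S Q c μ ((U s).indicator 1) x * g s x ∂ν := by
    rw [← Finset.sum_fiberwise_of_maps_to (g := j) (t := J)
      (fun k hk => Finset.mem_image_of_mem j hk)]
    refine Finset.sum_le_sum fun s _ => ?_
    rw [lintegral_Op_mul S hQ c μ ν _ (hgm s), Finset.mul_sum]
    refine le_trans (Finset.sum_le_sum fun k hk => ?_) (Finset.sum_le_sum_of_subset
      ((Finset.filter_subset (fun k => j k = s) S1).trans hS1))
    obtain ⟨hk1, hks⟩ := Finset.mem_filter.1 hk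
    have h1 : μ (Q k) ≤ ∫⁻ y in Q k, (U s).indicator 1 y ∂μ := by
      rw [← setLIntegral_one]
      refine setLIntegral_mono' (hQ k) fun y hy => ?_
      rw [indicator_of_mem (hks ▸ hQU k hk1 hy)]; rfl
    have h2 : tw (i k) * ν (Q k) ≤ ∫⁻ y in Q k, g s y ∂ν := by
      rw [← setLIntegral_const]
      exact setLIntegral_mono' (hQ k) fun y hy => hks ▸ hglow k hk1 y hy
    calc c k * (tw (j k) * μ (Q k)) * (tw (i k) * ν (Q k))
        = tw s * (c k * μ (Q k) * (tw (i k) * ν (Q k))) := by rw [hks]; ring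
      _ ≤ _ := by gcongr
  -- step 2: Hoelder and the restricted bound
  have step2 : ∀ s : ℤ, tw s * ∫⁻ x, Op S Q c μ ((U s).indicator 1) x * g s x ∂ν
      ≤ T * ((tw s * μ (U s) ^ (1 / p)) * (∫⁻ x, g s x ^ q ∂ν) ^ (1 / q)) := by
    intro s
    have h := ENNReal.lintegral_mul_le_Lp_mul_Lq ν hpq
      (measurable_Op S hQ c μ ((U s).indicator 1)).aemeasurable (hgm s).aemeasurable
    simp only [Pi.mul_apply] at h
    calc _ ≤ tw s * ((T * μ (U s) ^ (1 / p)) * (∫⁻ x, g s x ^ q ∂ν) ^ (1 / q)) := by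
          gcongr
          exact h.trans (mul_le_mul_left (hT _ (hU s)) _)
      _ = _ := by ring
  -- step 3: pointwise bound of the sum of the `g s`
  have step3 : ∀ y, ∑ s ∈ J, g s y ^ q
      ≤ Cg 1 ^ q * ∑ t ∈ I, (V t).indicator (fun _ => tw (t * q)) y := by
    intro y
    refine (sum_rpow_le_rpow_sum hpq.symm.lt.le J fun s => g s y).trans ?_
    have h1 : ∑ s ∈ J, g s y ≤ ∑ t ∈ I.filter fun t => y ∈ V t, tw t := by
      simp only [hg]
      rw [Finset.sum_comm, Finset.sum_filter]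
      refine Finset.sum_le_sum fun t _ => ?_
      by_cases hex : ∃ s ∈ J, y ∈ E s t
      · obtain ⟨s0, hs0, hy0⟩ := hex
        obtain ⟨k, hk, hyk⟩ := mem_iUnion₂.1 hy0
        obtain ⟨hk1, hkj, hki⟩ := Finset.mem_filter.1 hk
        rw [if_pos (hki ▸ hQV k hk1 hyk), Finset.sum_eq_single s0, indicator_of_mem hy0]
        · intro s _ hne
          refine indicator_of_notMem (fun hy => hne ?_) _
          obtain ⟨l, hl, hyl⟩ := mem_iUnion₂.1 hy
          obtain ⟨hl1, hlj, hli⟩ := Finset.mem_filter.1 hl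
          rw [← hlj, ← hkj]
          exact hji l hl1 k hk1 y hyl hyk (hli.trans hki.symm)
        · intro h; exact absurd hs0 h
      · rw [Finset.sum_eq_zero]
        · exact bot_le
        · intro s hs
          exact indicator_of_notMem (fun hy => hex ⟨s, hs, hy⟩) _
    calc (∑ s ∈ J, g s y) ^ q ≤ (∑ t ∈ I.filter fun t => y ∈ V t, tw t) ^ q := by gcongr
      _ ≤ Cg 1 ^ q * ∑ t ∈ I.filter fun t => y ∈ V t, tw (t * q) := geom_sum_rpow_le hq _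
      _ = _ := by
          rw [Finset.sum_filter]
          congr 1
  have step4 : ∑ s ∈ J, ∫⁻ x, g s x ^ q ∂ν ≤ Cg 1 ^ q * ∑ t ∈ I, tw (t * q) * ν (V t) := by
    rw [← lintegral_finsetSum _ fun s _ => (hgm s).pow_const q]
    refine (lintegral_mono step3).trans (le_of_eq ?_)
    rw [lintegral_const_mul _ (Finset.measurable_sum _ fun t _ =>
      measurable_const.indicator (hV t)),
      lintegral_finsetSum _ fun t _ => measurable_const.indicator (hV t)]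
    congr 1
    refine Finset.sum_congr rfl fun t _ => ?_
    rw [lintegral_indicator_const (hV t)]
  calc _ ≤ _ := step1
    _ ≤ ∑ s ∈ J, T * ((tw s * μ (U s) ^ (1 / p)) * (∫⁻ x, g s x ^ q ∂ν) ^ (1 / q)) :=
        Finset.sum_le_sum fun s _ => step2 s
    _ ≤ T * ((∑ s ∈ J, (tw s * μ (U s) ^ (1 / p)) ^ p) ^ (1 / p) *
          (∑ s ∈ J, ((∫⁻ x, g s x ^ q ∂ν) ^ (1 / q)) ^ q) ^ (1 / q)) := by
        rw [← Finset.mul_sum]
        gcongr
        exact ENNReal.inner_le_Lp_mul_Lq J _ _ hpq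
    _ = T * (∑ s ∈ J, tw (s * p) * μ (U s)) ^ (1 / p) *
          (∑ s ∈ J, ∫⁻ x, g s x ^ q ∂ν) ^ (1 / q) := by
        rw [mul_assoc]
        congr 3
        · refine Finset.sum_congr rfl fun s _ => ?_
          rw [ENNReal.mul_rpow_of_nonneg _ _ hp.le, tw_rpow, ← ENNReal.rpow_mul,
            one_div_mul_cancel hp.ne', ENNReal.rpow_one]
        · refine Finset.sum_congr rfl fun s _ => ?_
          rw [← ENNReal.rpow_mul, one_div_mul_cancel hq.ne', ENNReal.rpow_one]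
    _ ≤ T * (∑ s ∈ J, tw (s * p) * μ (U s)) ^ (1 / p) *
          (Cg 1 ^ q * ∑ t ∈ I, tw (t * q) * ν (V t)) ^ (1 / q) := by gcongr
    _ = _ := by
        rw [ENNReal.mul_rpow_of_nonneg _ _ (one_div_pos.2 hq).le, ← ENNReal.rpow_mul,
          mul_one_div_cancel hq.ne', ENNReal.rpow_one]

open Classical in
/-- The largest average of `f` over the sets of the family that contain `Q k`. -/
noncomputable def topAvg (S : Finset ι) (Q : ι → Set X) (μ : Measure X) (f : X → ℝ≥0∞)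
    (k : ι) : ℝ≥0∞ :=
  (S.filter fun l => Q k ⊆ Q l).sup fun l => (∫⁻ y in Q l, f y ∂μ) / μ (Q l)

lemma topAvg_anti (S : Finset ι) (Q : ι → Set X) (μ : Measure X) (f : X → ℝ≥0∞) {k l : ι}
    (h : Q k ⊆ Q l) : topAvg S Q μ f l ≤ topAvg S Q μ f k := by
  classical
  refine Finset.sup_mono fun m hm => ?_
  rw [Finset.mem_filter] at hm ⊢
  exact ⟨hm.1, h.trans hm.2⟩

lemma avg_ne_top (μ : Measure X) (f : X → ℝ≥0∞) (A : Set X) (h : ∫⁻ y in A, f y ∂μ ≠ ∞) :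
    (∫⁻ y in A, f y ∂μ) / μ A ≠ ∞ := by
  by_cases h0 : μ A = 0
  · rw [setLIntegral_measure_zero _ _ h0]; simp
  · exact ENNReal.div_ne_top h h0

lemma avg_mul (μ : Measure X) (f : X → ℝ≥0∞) (A : Set X) (h : μ A ≠ ∞) :
    (∫⁻ y in A, f y ∂μ) / μ A * μ A = ∫⁻ y in A, f y ∂μ := by
  by_cases h0 : μ A = 0
  · rw [setLIntegral_measure_zero _ _ h0]; simp
  · exact ENNReal.div_mul_cancel h0 h

lemma topAvg_ne_top (S : Finset ι) (Q : ι → Set X) (μ : Measure X) (f : X → ℝ≥0∞)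
    (h : ∀ k ∈ S, ∫⁻ y in Q k, f y ∂μ ≠ ∞) (k : ι) : topAvg S Q μ f k ≠ ∞ := by
  classical
  refine ne_of_lt ((Finset.sup_lt_iff (by simp)).2 fun l hl => ?_)
  exact (avg_ne_top μ f _ (h l (Finset.mem_filter.1 hl).1)).lt_top

lemma le_topAvg (S : Finset ι) (Q : ι → Set X) (μ : Measure X) (f : X → ℝ≥0∞) {k : ι}
    (hk : k ∈ S) (hμ : μ (Q k) ≠ ∞) : ∫⁻ y in Q k, f y ∂μ ≤ topAvg S Q μ f k * μ (Q k) := by
  classical
  rw [← avg_mul μ f _ hμ]
  gcongr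
  exact Finset.le_sup (f := fun l => (∫⁻ y in Q l, f y ∂μ) / μ (Q l))
    (Finset.mem_filter.2 ⟨hk, Subset.rfl⟩)

lemma topAvg_ne_zero (S : Finset ι) (Q : ι → Set X) (μ : Measure X) (f : X → ℝ≥0∞) {k : ι}
    (hk : k ∈ S) (hμ : μ (Q k) ≠ ∞) (h : ∫⁻ y in Q k, f y ∂μ ≠ 0) : topAvg S Q μ f k ≠ 0 := by
  intro h0
  have := le_topAvg S Q μ f hk hμ
  rw [h0, zero_mul] at this
  exact h (le_antisymm this bot_le)

lemma subset_lev_topAvg (S : Finset ι) (Q : ι → Set X) (μ : Measure X) (f : X → ℝ≥0∞)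
    (hμ : ∀ k ∈ S, μ (Q k) ≠ ∞) (h : ∀ k ∈ S, ∫⁻ y in Q k, f y ∂μ ≠ ∞) {k : ι} (hk : k ∈ S)
    (h0 : ∫⁻ y in Q k, f y ∂μ ≠ 0) : Q k ⊆ lev S Q μ f (lg (topAvg S Q μ f k)) := by
  classical
  obtain ⟨l, hl, hsup⟩ := Finset.exists_mem_eq_sup (S.filter fun l => Q k ⊆ Q l)
    ⟨k, Finset.mem_filter.2 ⟨hk, Subset.rfl⟩⟩ fun l => (∫⁻ y in Q l, f y ∂μ) / μ (Q l)
  obtain ⟨hlS, hkl⟩ := Finset.mem_filter.1 hl
  refine hkl.trans (subset_lev hlS ?_)
  rw [← avg_mul μ f _ (hμ l hlS)]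
  gcongr
  exact (tw_lg_le (topAvg_ne_zero S Q μ f hk (hμ k hk) h0) (topAvg_ne_top S Q μ f h k)).trans
    (le_of_eq hsup)

lemma int_le_tw (S : Finset ι) (Q : ι → Set X) (μ : Measure X) (f : X → ℝ≥0∞)
    (hμ : ∀ k ∈ S, μ (Q k) ≠ ∞) (h : ∀ k ∈ S, ∫⁻ y in Q k, f y ∂μ ≠ ∞) {k : ι} (hk : k ∈ S)
    (h0 : ∫⁻ y in Q k, f y ∂μ ≠ 0) :
    ∫⁻ y in Q k, f y ∂μ ≤ 2 * (tw (lg (topAvg S Q μ f k)) * μ (Q k)) := by
  refine (le_topAvg S Q μ f hk (hμ k hk)).trans ?_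
  rw [← mul_assoc, mul_comm 2, ← tw_one, ← tw_add]
  gcongr
  exact (lt_tw_lg (topAvg_ne_zero S Q μ f hk (hμ k hk) h0) (topAvg_ne_top S Q μ f h k)).le

/-- The constant of the bilinear bound. -/
noncomputable def Cb (p q : ℝ) : ℝ≥0∞ := 4 * Cg 1 * Cd p ^ (1 / p) * Cd q ^ (1 / q)

lemma Cb_ne_top {p q : ℝ} (hpq : p.HolderConjugate q) : Cb p q ≠ ∞ := by
  refine ENNReal.mul_ne_top (ENNReal.mul_ne_top (ENNReal.mul_ne_top (by norm_num)
    (Cg_ne_top one_pos)) ?_) ?_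
  · exact ENNReal.rpow_ne_top_of_nonneg (one_div_pos.2 hpq.pos).le (Cd_ne_top hpq.lt)
  · exact ENNReal.rpow_ne_top_of_nonneg (one_div_pos.2 hpq.symm.pos).le (Cd_ne_top hpq.symm.lt)

/-- The bilinear bound. -/
lemma bilinear (S : Finset ι) {Q : ι → Set X} (hQ : ∀ k, MeasurableSet (Q k))
    (lam : ∀ k ∈ S, ∀ l ∈ S, Disjoint (Q k) (Q l) ∨ Q k ⊆ Q l ∨ Q l ⊆ Q k)
    (c : ι → ℝ≥0∞) (μ ν : Measure X) (hμ : ∀ k ∈ S, μ (Q k) ≠ ∞) (hν : ∀ k ∈ S, ν (Q k) ≠ ∞)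
    {p q : ℝ} (hpq : p.HolderConjugate q) (T₁ T₂ : ℝ≥0∞)
    (hT₁ : ∀ A, MeasurableSet A →
      (∫⁻ x, Op S Q c ν (A.indicator 1) x ^ q ∂μ) ^ (1 / q) ≤ T₁ * ν A ^ (1 / q))
    (hT₂ : ∀ A, MeasurableSet A →
      (∫⁻ x, Op S Q c μ (A.indicator 1) x ^ p ∂ν) ^ (1 / p) ≤ T₂ * μ A ^ (1 / p))
    {f g : X → ℝ≥0∞} (hf : Measurable f) (hg : Measurable g)
    (hf1 : ∀ k ∈ S, ∫⁻ y in Q k, f y ∂μ ≠ ∞) (hg1 : ∀ k ∈ S, ∫⁻ y in Q k, g y ∂ν ≠ ∞) :
    ∑ k ∈ S, c k * (∫⁻ y in Q k, f y ∂μ) * ∫⁻ y in Q k, g y ∂ν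
      ≤ Cb p q * (T₁ + T₂) * (∫⁻ x, f x ^ p ∂μ) ^ (1 / p) * (∫⁻ x, g x ^ q ∂ν) ^ (1 / q) := by
  classical
  have hp := hpq.pos
  have hq := hpq.symm.pos
  set S' := S.filter fun k => ∫⁻ y in Q k, f y ∂μ ≠ 0 ∧ ∫⁻ y in Q k, g y ∂ν ≠ 0 with hS'
  set j : ι → ℤ := fun k => lg (topAvg S Q μ f k) with hj
  set i : ι → ℤ := fun k => lg (topAvg S Q ν g k) with hi
  have hjm : ∀ k ∈ S', ∀ l ∈ S', Q k ⊆ Q l → j l ≤ j k := fun k _ l hl h => by
    obtain ⟨hlS, hl1, _⟩ := Finset.mem_filter.1 hl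
    exact lg_mono (topAvg_ne_zero S Q μ f hlS (hμ l hlS) hl1) (topAvg_ne_top S Q μ f hf1 k)
      (topAvg_anti S Q μ f h)
  have him : ∀ k ∈ S', ∀ l ∈ S', Q k ⊆ Q l → i l ≤ i k := fun k _ l hl h => by
    obtain ⟨hlS, _, hl1⟩ := Finset.mem_filter.1 hl
    exact lg_mono (topAvg_ne_zero S Q ν g hlS (hν l hlS) hl1) (topAvg_ne_top S Q ν g hg1 k)
      (topAvg_anti S Q ν g h)
  have hnest : ∀ k ∈ S', ∀ l ∈ S', ∀ x, x ∈ Q k → x ∈ Q l → Q k ⊆ Q l ∨ Q l ⊆ Q k := by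
    intro k hk l hl x hx hx'
    rcases lam k (Finset.mem_filter.1 hk).1 l (Finset.mem_filter.1 hl).1 with h | h
    · exact absurd hx' (Set.disjoint_left.1 h hx)
    · exact h
  have hne : ∀ k ∈ S', (Q k).Nonempty := by
    intro k hk
    rw [Set.nonempty_iff_ne_empty]
    intro h
    exact (Finset.mem_filter.1 hk).2.1 (by simp [h])
  set P : ι → Prop := fun k => ∀ l ∈ S', Q k ⊆ Q l → i l = i k → j l = j k with hP
  set S1 := S'.filter P with hS1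
  set S2 := S'.filter fun k => ¬ P k with hS2
  have hS2' : ∀ k ∈ S2, ∀ l ∈ S', Q k ⊆ Q l → j l = j k → i l = i k := by
    intro k hk l hl hkl hjl
    obtain ⟨hk', hnP⟩ := Finset.mem_filter.1 hk
    simp only [hP, not_forall] at hnP
    obtain ⟨m, hm, hkm, him', hjm'⟩ := hnP
    obtain ⟨x, hx⟩ := hne k hk'
    rcases hnest l hl m hm x (hkl hx) (hkm hx) with h | h
    · have h1 := him l hl m hm h
      have h2 := him k hk' l hl hkl
      omega
    · have h1 := hjm m hm l hl h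
      have h2 := hjm k hk' m hm hkm
      omega
  have hS1sub : S1 ⊆ S' := Finset.filter_subset _ _
  have hS2sub : S2 ⊆ S' := Finset.filter_subset _ _
  have hS'sub : S' ⊆ S := Finset.filter_subset _ _
  have hQU : ∀ k ∈ S', Q k ⊆ lev S Q μ f (j k) := fun k hk =>
    subset_lev_topAvg S Q μ f hμ hf1 (hS'sub hk) (Finset.mem_filter.1 hk).2.1
  have hQV : ∀ k ∈ S', Q k ⊆ lev S Q ν g (i k) := fun k hk =>
    subset_lev_topAvg S Q ν g hν hg1 (hS'sub hk) (Finset.mem_filter.1 hk).2.2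
  have b1 := one_sided S hQ c μ ν hpq T₂ hT₂ S1 (hS1sub.trans hS'sub) j i (lev S Q μ f)
    (lev S Q ν g) (measurableSet_lev S hQ μ f) (measurableSet_lev S hQ ν g)
    (fun k hk => hQU k (hS1sub hk)) (fun k hk => hQV k (hS1sub hk)) (by
      intro k hk l hl x hx hx' hil
      rcases hnest k (hS1sub hk) l (hS1sub hl) x hx hx' with h | h
      · exact ((Finset.mem_filter.1 hk).2 l (hS1sub hl) h hil.symm).symm
      · exact (Finset.mem_filter.1 hl).2 k (hS1sub hk) h hil)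
  have b2 := one_sided S hQ c ν μ hpq.symm T₁ hT₁ S2 (hS2sub.trans hS'sub) i j (lev S Q ν g)
    (lev S Q μ f) (measurableSet_lev S hQ ν g) (measurableSet_lev S hQ μ f)
    (fun k hk => hQV k (hS2sub hk)) (fun k hk => hQU k (hS2sub hk)) (by
      intro k hk l hl x hx hx' hil
      rcases hnest k (hS2sub hk) l (hS2sub hl) x hx hx' with h | h
      · exact (hS2' k hk l (hS2sub hl) h hil.symm).symm
      · exact hS2' l hl k (hS2sub hk) h hil)
  have dF : ∀ J : Finset ℤ, (∑ s ∈ J, tw (s * p) * μ (lev S Q μ f s)) ^ (1 / p)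
      ≤ Cd p ^ (1 / p) * (∫⁻ x, f x ^ p ∂μ) ^ (1 / p) := fun J => by
    rw [← ENNReal.mul_rpow_of_nonneg _ _ (one_div_pos.2 hp).le]
    exact ENNReal.rpow_le_rpow (doob S hQ μ hμ lam hf hpq.lt J) (one_div_pos.2 hp).le
  have dG : ∀ J : Finset ℤ, (∑ s ∈ J, tw (s * q) * ν (lev S Q ν g s)) ^ (1 / q)
      ≤ Cd q ^ (1 / q) * (∫⁻ x, g x ^ q ∂ν) ^ (1 / q) := fun J => by
    rw [← ENNReal.mul_rpow_of_nonneg _ _ (one_div_pos.2 hq).le]
    exact ENNReal.rpow_le_rpow (doob S hQ ν hν lam hg hpq.symm.lt J) (one_div_pos.2 hq).le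
  set Nf := (∫⁻ x, f x ^ p ∂μ) ^ (1 / p)
  set Ng := (∫⁻ x, g x ^ q ∂ν) ^ (1 / q)
  calc ∑ k ∈ S, c k * (∫⁻ y in Q k, f y ∂μ) * ∫⁻ y in Q k, g y ∂ν
      = ∑ k ∈ S', c k * (∫⁻ y in Q k, f y ∂μ) * ∫⁻ y in Q k, g y ∂ν := by
        refine (Finset.sum_subset hS'sub fun k hk hk' => ?_).symm
        rw [hS', Finset.mem_filter, not_and, not_and_or, not_not, not_not] at hk'
        rcases hk' hk with h | h <;> simp [h]
    _ ≤ ∑ k ∈ S', 4 * (c k * (tw (j k) * μ (Q k)) * (tw (i k) * ν (Q k))) := by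
        refine Finset.sum_le_sum fun k hk => ?_
        have h1 := int_le_tw S Q μ f hμ hf1 (hS'sub hk) (Finset.mem_filter.1 hk).2.1
        have h2 := int_le_tw S Q ν g hν hg1 (hS'sub hk) (Finset.mem_filter.1 hk).2.2
        calc _ ≤ c k * (2 * (tw (j k) * μ (Q k))) * (2 * (tw (i k) * ν (Q k))) := by gcongr
          _ = _ := by ring
    _ = 4 * (∑ k ∈ S1, c k * (tw (j k) * μ (Q k)) * (tw (i k) * ν (Q k)) +
          ∑ k ∈ S2, c k * (tw (i k) * ν (Q k)) * (tw (j k) * μ (Q k))) := by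
        rw [← Finset.mul_sum, ← Finset.sum_filter_add_sum_filter_not S' P]
        congr 2
        exact Finset.sum_congr rfl fun k _ => by ring
    _ ≤ 4 * (T₂ * (Cd p ^ (1 / p) * Nf) * (Cg 1 * (Cd q ^ (1 / q) * Ng)) +
          T₁ * (Cd q ^ (1 / q) * Ng) * (Cg 1 * (Cd p ^ (1 / p) * Nf))) := by
        gcongr
        · refine b1.trans ?_
          gcongr
          · exact dF _
          · exact dG _
        · refine b2.trans ?_
          gcongr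
          · exact dG _
          · exact dF _
    _ = _ := by rw [Cb]; ring

lemma setLIntegral_ne_top (μ : Measure X) {p q : ℝ} (hpq : p.HolderConjugate q)
    {f : X → ℝ≥0∞} (hf : Measurable f) (hfp : ∫⁻ x, f x ^ p ∂μ ≠ ∞) {A : Set X}
    (hA : μ A ≠ ∞) : ∫⁻ y in A, f y ∂μ ≠ ∞ := by
  have h := ENNReal.lintegral_mul_le_Lp_mul_Lq (μ.restrict A) hpq hf.aemeasurable
    (g := fun _ => 1) aemeasurable_const
  simp only [Pi.mul_apply, mul_one, ENNReal.one_rpow, lintegral_const, one_mul,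
    Measure.restrict_apply MeasurableSet.univ, univ_inter] at h
  refine ne_top_of_le_ne_top (ENNReal.mul_ne_top ?_ ?_) h
  · refine ENNReal.rpow_ne_top_of_nonneg (one_div_pos.2 hpq.pos).le ?_
    exact ne_top_of_le_ne_top hfp (setLIntegral_le_lintegral _ _)
  · exact ENNReal.rpow_ne_top_of_nonneg (one_div_pos.2 hpq.symm.pos).le hA

/-- The strong bound. -/
lemma strong (S : Finset ι) {Q : ι → Set X} (hQ : ∀ k, MeasurableSet (Q k))
    (lam : ∀ k ∈ S, ∀ l ∈ S, Disjoint (Q k) (Q l) ∨ Q k ⊆ Q l ∨ Q l ⊆ Q k)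
    (c : ι → ℝ≥0∞) (hc : ∀ k ∈ S, c k ≠ ∞) (μ ν : Measure X) (hμ : ∀ k ∈ S, μ (Q k) ≠ ∞)
    (hν : ∀ k ∈ S, ν (Q k) ≠ ∞)
    {p q : ℝ} (hpq : p.HolderConjugate q) (T₁ T₂ : ℝ≥0∞)
    (hT₁ : ∀ A, MeasurableSet A →
      (∫⁻ x, Op S Q c ν (A.indicator 1) x ^ q ∂μ) ^ (1 / q) ≤ T₁ * ν A ^ (1 / q))
    (hT₂ : ∀ A, MeasurableSet A →
      (∫⁻ x, Op S Q c μ (A.indicator 1) x ^ p ∂ν) ^ (1 / p) ≤ T₂ * μ A ^ (1 / p))
    {f : X → ℝ≥0∞} (hf : Measurable f) (hfp : ∫⁻ x, f x ^ p ∂μ ≠ ∞) :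
    (∫⁻ x, Op S Q c μ f x ^ p ∂ν) ^ (1 / p)
      ≤ Cb p q * (T₁ + T₂) * (∫⁻ x, f x ^ p ∂μ) ^ (1 / p) := by
  classical
  have hp := hpq.pos
  have hq := hpq.symm.pos
  have hp1 : 0 < p - 1 := by linarith [hpq.lt]
  have hf1 : ∀ k ∈ S, ∫⁻ y in Q k, f y ∂μ ≠ ∞ := fun k hk =>
    setLIntegral_ne_top μ hpq hf hfp (hμ k hk)
  set G := Op S Q c μ f with hG
  have hGm : Measurable G := measurable_Op S hQ c μ f
  set K := ∑ k ∈ S, c k * ∫⁻ y in Q k, f y ∂μ with hK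
  have hKt : K ≠ ∞ := ENNReal.sum_ne_top.2 fun k hk => ENNReal.mul_ne_top (hc k hk) (hf1 k hk)
  have hGK : ∀ x, G x ≤ K := fun x =>
    Finset.sum_le_sum fun k _ => indicator_le_self' (fun _ _ => bot_le) x
  have hg1 : ∀ k ∈ S, ∫⁻ y in Q k, G y ^ (p - 1) ∂ν ≠ ∞ := by
    intro k hk
    refine ne_top_of_le_ne_top (b := ∫⁻ _ in Q k, K ^ (p - 1) ∂ν) ?_
      (lintegral_mono fun y => ENNReal.rpow_le_rpow (hGK y) hp1.le)
    rw [setLIntegral_const]
    exact ENNReal.mul_ne_top (ENNReal.rpow_ne_top_of_nonneg hp1.le hKt) (hν k hk)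
  have hpow : ∀ x, G x ^ p = G x * G x ^ (p - 1) := fun x => by
    conv_lhs => rw [show p = 1 + (p - 1) by ring]
    rw [ENNReal.rpow_add_of_nonneg _ _ zero_le_one hp1.le, ENNReal.rpow_one]
  have hI : ∫⁻ x, G x ^ p ∂ν
      = ∑ k ∈ S, c k * (∫⁻ y in Q k, f y ∂μ) * ∫⁻ y in Q k, G y ^ (p - 1) ∂ν := by
    rw [← lintegral_Op_mul S hQ c μ ν f (hGm.pow_const _)]
    exact lintegral_congr hpow
  have hIt : ∫⁻ x, G x ^ p ∂ν ≠ ∞ := by
    rw [hI]
    exact ENNReal.sum_ne_top.2 fun k hk =>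
      ENNReal.mul_ne_top (ENNReal.mul_ne_top (hc k hk) (hf1 k hk)) (hg1 k hk)
  have hb := bilinear S hQ lam c μ ν hμ hν hpq T₁ T₂ hT₁ hT₂ hf (hGm.pow_const (p - 1)) hf1 hg1
  rw [← hI] at hb
  have hq' : ∀ x, (G x ^ (p - 1)) ^ q = G x ^ p := fun x => by
    rw [← ENNReal.rpow_mul, hpq.sub_one_mul_conj]
  simp only [hq'] at hb
  set I := ∫⁻ x, G x ^ p ∂ν
  by_cases hI0 : I = 0
  · rw [hI0, ENNReal.zero_rpow_of_pos (one_div_pos.2 hp)]; exact bot_le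
  have hsplit : I = I ^ (1 / p) * I ^ (1 / q) := by
    rw [← ENNReal.rpow_add _ _ hI0 hIt, one_div, one_div, hpq.inv_add_inv_eq_one,
      ENNReal.rpow_one]
  have h0 : I ^ (1 / q) ≠ 0 := by simp [ENNReal.rpow_eq_zero_iff, hI0, hIt]
  have ht : I ^ (1 / q) ≠ ∞ := ENNReal.rpow_ne_top_of_nonneg (one_div_pos.2 hq).le hIt
  exact (ENNReal.mul_le_mul_iff_left h0 ht).1 (hsplit ▸ hb)

end Abstract

open Pool.Agent.MP_6bb8b9_an.H2

lemma sparseOp_eq {n : ℕ} (S : Finset (Euc n × ℝ)) {σ f : Euc n → ℝ≥0∞} (hσ : Measurable σ)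
    (hf : Measurable f) :
    sparseOp S (fun y => f y * σ y) = Op S (fun R => cube R.1 R.2)
      (fun R => (volume (cube R.1 R.2))⁻¹) (volume.withDensity σ) f := by
  funext x
  simp only [sparseOp, Op, avg]
  refine Finset.sum_congr rfl fun R _ => ?_
  congr 1
  funext _
  rw [setLIntegral_withDensity_eq_setLIntegral_mul _ hσ hf (measurableSet_cube _ _),
    ENNReal.div_eq_inv_mul]
  simp only [Pi.mul_apply, mul_comm]

lemma lintegral_weight {n : ℕ} {u F : Euc n → ℝ≥0∞} (hu : Measurable u) (hF : Measurable F) :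
    ∫⁻ x, F x * u x = ∫⁻ x, F x ∂(volume.withDensity u) := by
  rw [lintegral_withDensity_eq_lintegral_mul _ hu hF]
  simp only [Pi.mul_apply, mul_comm]

lemma restricted {n : ℕ} (S : Finset (Euc n × ℝ)) {u σ : Euc n → ℝ≥0∞} (hu : Measurable u)
    (hσ : Measurable σ) {p : ℝ} {T : ℝ≥0∞}
    (h : ∀ A, MeasurableSet A → (∫⁻ x, sparseOp S (A.indicator σ) x ^ p * u x) ^ (1 / p)
      ≤ T * (∫⁻ x in A, σ x) ^ (1 / p)) :
    ∀ A, MeasurableSet A → (∫⁻ x, Op S (fun R => cube R.1 R.2)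
      (fun R => (volume (cube R.1 R.2))⁻¹) (volume.withDensity σ) (A.indicator 1) x ^ p
        ∂(volume.withDensity u)) ^ (1 / p) ≤ T * (volume.withDensity σ) A ^ (1 / p) := by
  intro A hA
  have h1 := h A hA
  have h2 : A.indicator σ = fun y => A.indicator (1 : Euc n → ℝ≥0∞) y * σ y := by
    funext y; by_cases hy : y ∈ A <;> simp [hy]
  rw [lintegral_weight hu ((measurable_sparseOp _ _).pow_const p), h2,
    sparseOp_eq S hσ (measurable_one.indicator hA)] at h1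
  rwa [withDensity_apply _ hA]

theorem itemE {n : ℕ} {p q : ℝ} (hpq : p.HolderConjugate q) : SpecStrong n p q := by
  refine ⟨(Cb p q).toNNReal, fun S hS u σ hu hσ hu1 hσ1 T₁ T₂ hT₁ hT₂ f hf hfp => ?_⟩
  rw [ENNReal.coe_toNNReal (Cb_ne_top hpq), lintegral_weight hσ (hf.pow_const p),
    lintegral_weight hu ((measurable_sparseOp _ _).pow_const p), sparseOp_eq S hσ hf]
  rw [lintegral_weight hσ (hf.pow_const p)] at hfp
  refine strong S (fun R => measurableSet_cube _ _) ?_ _ ?_ _ _ ?_ ?_ hpq T₁ T₂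
    (restricted S hσ hu hT₁) (restricted S hu hσ hT₂) hf hfp.ne
  · intro k hk l hl
    by_cases hkl : k = l
    · exact Or.inr (Or.inl (hkl ▸ Subset.rfl))
    · rcases hS.lam k hk l hl hkl with h | h | h
      · exact Or.inl h
      · exact Or.inr (Or.inl h.subset)
      · exact Or.inr (Or.inr h.subset)
  · intro k hk
    exact ENNReal.inv_ne_top.2 (volume_cube_pos _ (hS.pos k hk)).ne'
  · intro k _
    rw [withDensity_apply _ (measurableSet_cube _ _)]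
    exact (hσ1 _ _).ne
  · intro k _
    rw [withDensity_apply _ (measurableSet_cube _ _)]
    exact (hu1 _ _).ne

end Pool.Agent.MP_6bb8b9_an.H51
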